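import Pool.Agent.UL4.Defs

/-!
# Squad UL5 (MP_c7c9bf_co): cones over centrally symmetric bases satisfy Ulam's bound

THEOREM (helper73, note 3965). Let `C` be a centrally symmetric planar convex body in 3-space and `p` a point
outside of its plane. The cone `conv (C ∪ {p})` has a packing by translates of itself and its negative of
density at least `16 / 21 = 0.7619 > 0.74049 = pi / sqrt 18`.

All rows: file `Pool/Agent/HelperNN_UL5/XXX.lean`, import the file of the statement, namespace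
`Pool.Agent.UL5.HNN`, theorem `xxx (hypotheses = the statements of the column uses, in this order) : XxxStmt`.
-/

set_option autoImplicit false

namespace Pool.Agent.UL5

open MeasureTheory Set Pool.Agent.UL3 Pool.Agent.UL4

/-- the double cone `‖x‖_C + |z| ≤ 1` -/
def dco (C : Set (ℝ × ℝ)) : Set E3 :=
  {x | |x 2| ≤ 1 ∧ ∃ c ∈ C, (x 0, x 1) = (1 - |x 2|) • c}

/-- the cone over `C` with apex `(0, 0, 1)` -/
def con (C : Set (ℝ × ℝ)) : Set E3 :=
  {x | 0 ≤ x 2 ∧ x 2 ≤ 1 ∧ ∃ c ∈ C, (x 0, x 1) = (1 - x 2) • c}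

/-- the maximum of `cr u w`, `w ∈ C` -/
noncomputable def Hm (C : Set (ℝ × ℝ)) (u : ℝ × ℝ) : ℝ := sSup ((fun w => cr u w) '' C)

/-- there is a double lattice packing of density at least `16 / 21` -/
def Good3 (K : Set E3) : Prop :=
  ∃ (v : Fin 3 → E3) (z : E3), 0 < dt v ∧
    (∀ n : Fin 3 → ℤ, n ≠ 0 → Disjoint (interior K)
      ((fun x => x + (2 : ℝ) • ∑ i, (n i : ℝ) • v i) '' interior K)) ∧
    (∀ n : Fin 3 → ℤ, z + ∑ i, (n i : ℝ) • v i ∉ interior K) ∧
    dt v ≤ 21 / 64 * V K

end Pool.Agent.UL5
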