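import Pool.Agent.UL5.Defs
import Pool.Agent.UL4.Stmts

/-!
# Squad UL5: statements

One statement per row; every docstring contains a complete proof.
-/

set_option autoImplicit false

namespace Pool.Agent.UL5

open MeasureTheory Set Pool.Agent.UL3 Pool.Agent.UL4

/-! ### The plane -/

/-- **HMX** (easy-medium, no hypotheses).  The function `Hm`.
PROOF.  `C` is compact and nonempty, `w ↦ cr u w` is continuous and odd, `C = - C`. `Hm C` is the support function of a compact set in linear coordinates: `|Hm C u - Hm C u'| ≤ max_{w ∈ C} |cr (u - u') w|`, so it is Lipschitz, continuous. For `u ≠ 0`, `C` contains a ball about `0`, so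
some `w ∈ C` has `cr u w > 0`. -/
def HmxStmt : Prop :=
  ∀ C : Set (ℝ × ℝ), PB C → (∀ u, ∀ w ∈ C, |cr u w| ≤ Hm C u) ∧ (∀ u, ∃ w ∈ C, cr u w = Hm C u) ∧
    Continuous (Hm C) ∧ (∀ u, u ≠ 0 → 0 < Hm C u) ∧ ∀ (t : ℝ) (u : ℝ × ℝ), 0 ≤ t →
      Hm C (t • u) = t * Hm C u

/-- **CAP** (medium-strong, uses HMX).  Hexagon and caps.
PROOF.  `D = cr a b`. The hexagon `±a, ±b, ±(b - a)` has area `3 D`. Let `P ∈ C` with `cr a P = Hm C a ≥ D` (`b ∈ C`): the triangle `b - a, b, P` (base parallel to `a`, at level `cr a x = D`) has area `(Hm C a - D)/2`, it is in `C ∩ {cr a x ≥ D}`; similarly for the other five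
edges (`b` and `b - a` instead of `a`, and the negatives). The six triangles are disjoint up to null sets, and from the hexagon too, because the six sets `C ∩ {x | x strictly beyond the edge}` are pairwise disjoint. For adjacent edges, at the vertex `b`: `x = s a + t b ∈ C` with
`cr a x > D`, `cr x (b - a) > D`, that is `t > 1`, `s + t > 1`: then `b` is in the interior of the triangle `x, a, b - a` (in coordinates `(s,t)`, `(1,0)`, `(-1,1)`, `b = (0,1)`: all three of `t - 1`, `s + t - 1` and `1` are positive), so `b ∈ interior C`, contradiction.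
The other vertices are the same (the linear map `a ↦ b`, `b ↦ b - a` permutes the hexagon cyclically, up to sign; or the same computation). All pairs of edges: the six regions are `t > 1`, `s + t > 1`, `s > 1`, `t < -1`, `s + t < -1`, `s < -1`; adjacent pairs are
excluded by the argument above (`(t > 1, s + t > 1)`: vertex `b`; `(s + t > 1, s > 1)`: vertex `a`; `(s > 1, t < -1)`: vertex `a - b`; and the negatives); `t > 1, s > 1` implies `s + t > 1`; `s + t > 1, t < -1` implies `s > 1`; `s > 1, s + t < -1` implies `t < -1`; opposite pairs are empty. Sum of the areas: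
`3 D + (Hm C a - D) + (Hm C b - D) + (Hm C (b - a) - D)`. -/
def CapStmt : Prop :=
  ∀ (C : Set (ℝ × ℝ)) (a b : ℝ × ℝ), PB C → a ∈ C → b ∈ C → b - a ∈ C → a ∉ interior C →
    b ∉ interior C → b - a ∉ interior C → 0 < cr a b →
    Hm C a + Hm C b + Hm C (b - a) ≤ ar C

/-- **PKA** (easy-medium, uses CAP; import PAA of UL3, `Pool.Agent.UL3.H77.paa`).  A direction with small `Hm`.
PROOF.  Take a boundary point `a` (for instance `s x` with `x ≠ 0` and `s` maximal). PAA: `b` with `b ∈ C`, `b - a ∈ C`, `Adm2 C a b`, `0 < cr a b`; `a, b, b - a` are not interior (`Adm2`). CAP: one of the three has `Hm ≤ ar C/3`. -/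
def PkaStmt : Prop :=
  ∀ C : Set (ℝ × ℝ), PB C → ∃ u ∈ C, u ∉ interior C ∧ 3 * Hm C u ≤ ar C

/-- **CHB** (medium, uses HMX).  The chord bound.
PROOF.  Level of `x`: `cr u x`. Chords parallel to `u` have length at most `2` (in units of `u`): if `x, x + λ u ∈ C`, `λ ≥ 0`, then `(λ/2) u ∈ C`, and `λ/2 ≤ 1` because `u` is not interior and `0` is. So `ar C ≤ 2 * 2 Hm C u` (Fubini in the linear coordinates `x = s u + y v`, `cr u v = 1`): the first claim. Second: with `Y = ar C/4`,
`C` contains the chord `[-u, u]` at level `0`, `[x, x + λ u]` at level `Y`, a point at level `H = Hm C u`, so the length of the chord at level `y` is at least the linear interpolation: `ar C ≥ 2 (Y (2 + λ)/2 + (H - Y) λ/2) = 2 Y + H λ`. So `H λ ≤ ar C / 2`. -/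
def ChbStmt : Prop :=
  ∀ (C : Set (ℝ × ℝ)) (u : ℝ × ℝ), PB C → u ∈ C → u ∉ interior C →
    ar C ≤ 4 * Hm C u ∧
    ∀ (x : ℝ × ℝ) (l : ℝ), x ∈ C → cr u x = ar C / 4 → x + l • u ∈ C → 2 * Hm C u * l ≤ ar C

/-- **SEL** (medium, uses HMX PKA CHB).  The choice of the direction.
PROOF.  Let `r u = ar C/(4 Hm C u)` for boundary points `u`. By CHB, `Y = ar C/4 ≤ Hm C u`, so the chord `{x ∈ C | cr u x = Y}` is a nonempty segment `[q - (λ/2) u, q + (λ/2) u]`. If `λ ≤ 10/7` then `q + s u` is not interior for `|s| ≥ 5/7` (an interior point of `C` on this line has points of `C` beyond it).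
(a) If some boundary `u` has `ar C = (20/7) Hm C u`: by CHB `λ ≤ ar C/(2 Hm C u) = 10/7`, and we are done. (b) Otherwise: by PKA some boundary point has `(20/7) Hm < 3 Hm ≤ ar C`; the boundary is connected (the function `x ↦ Hm C x / gauge C x` is continuous on the connected set `{0}ᶜ` and is
`Hm` on the boundary points, `x / gauge C x` is a boundary point), so `(20/7) Hm C u < ar C` for ALL boundary `u`. Take any boundary `u`; if `λ ≤ 10/7` we are done. If `λ > 10/7`, then `p = q + (5/7) u`, `p' = q - (5/7) u` are in `C`, `cr p' p = ...`, `|cr p p'| = (10/7) Y = (10/28) ar C`. The boundary point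
`u' = t p`, `t ≥ 1`, has `Hm C u' ≥ |cr p p'| t ≥ (10/28) ar C`, so `ar C ≤ (28/10) Hm C u' < (20/7) Hm C u'`, contradiction. -/
def SelStmt : Prop :=
  ∀ C : Set (ℝ × ℝ), PB C → ∃ u q : ℝ × ℝ, u ∈ C ∧ u ∉ interior C ∧ 20 / 7 * Hm C u ≤ ar C ∧
    cr u q = ar C / 4 ∧ ∀ s : ℝ, 5 / 7 ≤ |s| → q + s • u ∉ interior C

/-! ### The double cone -/

/-- **DCI** (easy-medium, no hypotheses).  Interior points of the double cone.
PROOF.  `|x 2| < 1` (move the third coordinate). If `e` is small, the point with horizontal coordinates `p + e` and the same third coordinate is in `dco C`, so `(1 - |z|)⁻¹ (p + e) ∈ C` for all small `e`. -/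
def DciStmt : Prop :=
  ∀ (C : Set (ℝ × ℝ)) (p : ℝ × ℝ) (z : ℝ), PB C → up p z ∈ interior (dco C) →
    |z| < 1 ∧ (1 - |z|)⁻¹ • p ∈ interior C

/-- **LAT** (medium, uses HMX DCI).  The lattice.
PROOF.  `Y = ar C/4 > 0`, `H = Hm C u`, `v = ![up ((3/4) u) (1/4), up (-(1/2) u) (1/2), up ((1/8) u + (7/8) q) (3/8)]`, determinant `± cr u ((7/8) q) * (3/8 + 1/8) = ± (7/16) Y = ± (7/64) ar C`. The point with integer coefficients `(b, a, n)` is `up (s u + n (7/8) q) z`, where `s = 3 b/4 - a/2 + n/8`,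
`z = b/4 + a/2 + 3 n/8`; `s + z = b + n/2`, `z - s = a - b/2 + n/4`. It is enough to treat `n ≥ 0` (symmetry). Let it be interior in `dco C`; DCI: `|z| < 1`, `(1 - |z|)⁻¹ (s u + n (7/8) q) ∈ interior C`.
`n = 0`: `|s| < 1 - |z|` (since `u` is not interior and `0` is), so `|s + z| < 1` and `|z - s| < 1`: `b = 0`, then `|a| < 1`, `a = 0`, excluded. `n ≥ 2`: the level `cr u x = n (7/8) Y/(1 - |z|)` of the point is `≤ H`, so `(7/4) Y ≤ H`; but `Y ≥ (5/7) H` (hypothesis), `5/4 ≤ 1`, contradiction. `n = 1`: `z = b/4 + a/2 + 3/8` is an odd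
multiple of `1/8`. If `|z| ≥ 3/8`: the level `(7/8) Y/(1 - |z|) ≥ (7/5) Y ≥ H`, and an interior point has level `< H`: contradiction. If `z = 1/8`: `b + 2 a = -1`, `b` odd, `s = b + 1/2 - z = b + 3/8`, so `|s| ≥ 5/8`; if `z = -1/8`: `b + 2 a = -2`, `b` even, `s = b + 5/8`, `|s| ≥ 5/8`. The point is
`(8/7) (s u + (7/8) q) = q + (8 s/7) u`, `|8 s/7| ≥ 5/7`: not interior by hypothesis. -/
def LatStmt : Prop :=
  ∀ (C : Set (ℝ × ℝ)) (u q : ℝ × ℝ), PB C → u ∈ C → u ∉ interior C → 20 / 7 * Hm C u ≤ ar C →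
    cr u q = ar C / 4 → (∀ s : ℝ, 5 / 7 ≤ |s| → q + s • u ∉ interior C) →
    ∃ v : Fin 3 → E3, 0 < dt v ∧ Adm (dco C) v ∧ dt v = 7 / 64 * ar C

/-- **DCB** (easy-medium, no hypotheses).  Cone and double cone.
PROOF.  `dco C` is closed and bounded (image of the compact set `{(c, z)}` under `(c, z) ↦ up ((1 - |z|) c) z`), convex (`‖x‖_C + |z| ≤ 1`; directly: `(1-|z|) c`, `(1-|z'|) c'`, the combination has `1 - |a z + b z'| ≥ a (1 - |z|) + b (1 - |z'|)` and `0 ∈ C`), symmetric. `con C ⊆ dco C`. `V (con C) = ∫_0^1 (1 - z)^2 ar C dz = ar C/3`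
(FUB of UL3, `Pool.Agent.UL3.H34.fub`, or directly). `0` is not interior in `con C`. Convexity of `con C`: the same. -/
def DcbStmt : Prop :=
  ∀ C : Set (ℝ × ℝ), PB C → SB (dco C) ∧ CB (con C) ∧ con C ⊆ dco C ∧ V (con C) = ar C / 3 ∧
    (0 : E3) ∉ interior (con C)

/-- **CGD** (easy-medium, uses SEL LAT DCB).  The cone is good.
PROOF.  SEL, LAT: `v`. `z = 0`: `∑ n_i v_i` is not interior in `dco C ⊇ con C` for `n ≠ 0`, and `0` is not interior in `con C`. Disjointness: as in row ADJ of UL3: if `x` and `x - 2 λ` are interior in `con C`, hence in `dco C`, then `λ = (x + (-(x - 2 λ)))/2` is interior in `dco C`. `dt v = (7/64) ar C = (21/64) V (con C)`. -/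
def CgdStmt : Prop := ∀ C : Set (ℝ × ℝ), PB C → Good3 (con C)

/-! ### Reduction to the standard position -/

/-- **INA** (easy-medium, no hypotheses).  Affine invariance.
PROOF.  As row INV of UL3 (`Pool.Agent.Helper2_UL3.INV`): for `K' = T '' (K - c)` and good `(v, z)` for `K'`, `(T.symm ∘ v, T.symm z + c)` is good for `K`: `interior K' = T '' (interior K - c)`; `dt` and `V` are both divided by `|det T|`. -/
def InaStmt : Prop :=
  ∀ (K : Set E3) (T : E3 ≃L[ℝ] E3) (c : E3), Good3 ((fun x => T (x - c)) '' K) → Good3 K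

/-- **STC** (medium, no hypotheses).  The standard position of a cone.
PROOF.  `b₁, b₂` a basis of the orthogonal complement of `n` (dimension two), `b₃ = p - c`; they are a basis of `E3` (`inner b₃ n ≠ 0`). `T b₁ = e₁`, `T b₂ = e₂`, `T b₃ = e₃`. `C₀ = {q | up q 0 ∈ T (C - c)}`: `T (C - c)` is in the plane `x 2 = 0`, so it is `{up q 0 | q ∈ C₀}`; `C₀` is compact, convex, symmetric. The image of
`convexHull (C ∪ {p})` is `convexHull (up '' C₀ ∪ {up 0 1})` (`AffineMap.image_convexHull`) `= {(1 - z) (up c 0) + z (up 0 1)} = con C₀` (`convexHull_insert`, `C₀` convex and nonempty: `0 ∈ C₀` because `C` is nonempty, symmetric and convex). If `C₀` had no interior point, it would be contained in a line through `0` (convex set in the plane), and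
`con C₀` in a plane, but it has interior points. -/
def StcStmt : Prop :=
  ∀ (C : Set E3) (c n p : E3), IsCompact C → Convex ℝ C → C.Nonempty → (∀ x ∈ C, (2 : ℝ) • c - x ∈ C) →
    (∀ x ∈ C, inner ℝ (x - c) n = 0) → inner ℝ (p - c) n ≠ 0 →
    (interior (convexHull ℝ (C ∪ {p}))).Nonempty →
    ∃ (T : E3 ≃L[ℝ] E3) (C₀ : Set (ℝ × ℝ)), PB C₀ ∧
      (fun x => T (x - c)) '' convexHull ℝ (C ∪ {p}) = con C₀

end Pool.Agent.UL5
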