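import Pool.Agent.UL5.Stmts

/-!
# Squad UL5: statements for double cones

One statement per row; every docstring contains a complete proof.
-/

set_option autoImplicit false

namespace Pool.Agent.UL5

open MeasureTheory Set Pool.Agent.UL3 Pool.Agent.UL4

/-- there is a lattice packing of density at least `16 / 21` -/
def Good4 (K : Set E3) : Prop :=
  ∃ v : Fin 3 → E3, 0 < dt v ∧
    (∀ n : Fin 3 → ℤ, n ≠ 0 → Disjoint (interior K)
      ((fun x => x + (2 : ℝ) • ∑ i, (n i : ℝ) • v i) '' interior K)) ∧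
    128 / 21 * dt v ≤ V K

/-- **DGD** (easy-medium, uses SEL LAT DCB; import the proved row ADJ of UL3, `Pool.Agent.UL3.H90.adj`).  The double cone is good.
PROOF.  SEL, LAT: `v`, `dt v = (7/64) ar C`. ADJ: disjointness. `V (dco C) = 2 V (con C) = (2/3) ar C`: `dco C = con C ∪ (- con C)`, the intersection is in the plane `x 2 = 0` (null set), `V (- con C) = V (con C)`, DCB; or Fubini as in DCB. `(128/21)(7/64) = 2/3`. -/
def DgdStmt : Prop := ∀ C : Set (ℝ × ℝ), PB C → Good4 (dco C)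

/-- **INB** (easy-medium, no hypotheses).  Affine invariance.
PROOF.  As row INA (and INV of UL3, `Pool.Agent.Helper2_UL3.INV`): `T.symm ∘ v`. -/
def InbStmt : Prop :=
  ∀ (K : Set E3) (T : E3 ≃L[ℝ] E3) (c : E3), Good4 ((fun x => T (x - c)) '' K) → Good4 K

/-- **SDC** (medium, no hypotheses).  The standard position of a double cone.
PROOF.  As row STC: `T`, `C₀`; the image of `{p, 2 c - p}` is `{e₃, -e₃}`, and `conv (up '' C₀ ∪ {e₃, -e₃}) = dco C₀`: `⊆`: `dco C₀` is convex and contains the generators; `⊇`: `x ∈ dco C₀` is a combination of `up c' 0` and `± e₃`. -/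
def SdcStmt : Prop :=
  ∀ (C : Set E3) (c n p : E3), IsCompact C → Convex ℝ C → C.Nonempty → (∀ x ∈ C, (2 : ℝ) • c - x ∈ C) →
    (∀ x ∈ C, inner ℝ (x - c) n = 0) → inner ℝ (p - c) n ≠ 0 →
    (interior (convexHull ℝ (C ∪ {p, (2 : ℝ) • c - p}))).Nonempty →
    ∃ (T : E3 ≃L[ℝ] E3) (C₀ : Set (ℝ × ℝ)), PB C₀ ∧
      (fun x => T (x - c)) '' convexHull ℝ (C ∪ {p, (2 : ℝ) • c - p}) = dco C₀

end Pool.Agent.UL5
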